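import Pool.Agent.Lib.MP_b07157_agYH.A2

/-!
# Families of lines
-/

noncomputable section

namespace MPb07157

open MeasureTheory MvPolynomial Filter Topology

namespace YH

theorem lineP_eval {n : ℕ} (F : MvPolynomial (Fin n) ℂ) (p v : Fin n → ℂ) (s : ℂ) :
    (lineP F p v).eval s = eval (p + s • v) F := by
  unfold lineP
  induction F using MvPolynomial.induction_on with
  | C a => simp
  | add f g hf hg => simp [hf, hg]
  | mul_X f i hf =>
    simp only [map_mul, aeval_X, Polynomial.eval_mul, hf, Polynomial.eval_add, Polynomial.eval_C,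
      Polynomial.eval_X, eval_X, Pi.add_apply, Pi.smul_apply, smul_eq_mul]
    ring

theorem lineP_natDegree {n : ℕ} (F : MvPolynomial (Fin n) ℂ) (p v : Fin n → ℂ) :
    (lineP F p v).natDegree ≤ F.totalDegree := by
  unfold lineP
  rw [aeval_def, eval₂_eq']
  refine Polynomial.natDegree_sum_le_of_forall_le _ _ ?_
  intro m hm
  refine (Polynomial.natDegree_mul_le).trans ?_
  have h1 : (algebraMap ℂ (Polynomial ℂ) (coeff m F)).natDegree = 0 := Polynomial.natDegree_C _
  rw [h1, zero_add]
  refine (Polynomial.natDegree_prod_le _ _).trans ?_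
  have h2 : ∀ i : Fin n, ((Polynomial.C (p i) + Polynomial.C (v i) * Polynomial.X) ^ m i).natDegree
      ≤ m i := by
    intro i
    refine (Polynomial.natDegree_pow_le).trans ?_
    have h3 : (Polynomial.C (p i) + Polynomial.C (v i) * Polynomial.X).natDegree ≤ 1 := by
      refine (Polynomial.natDegree_add_le _ _).trans ?_
      rw [Polynomial.natDegree_C]
      exact max_le (Nat.zero_le _) ((Polynomial.natDegree_C_mul_le _ _).trans Polynomial.natDegree_X_le)
    calc m i * _ ≤ m i * 1 := Nat.mul_le_mul_left _ h3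
      _ = m i := mul_one _
  refine (Finset.sum_le_sum fun i _ => h2 i).trans ?_
  have h4 := le_totalDegree hm
  rwa [Finsupp.sum_fintype _ _ (fun _ => rfl)] at h4

theorem lineP_coeff_cont {n : ℕ} (F : MvPolynomial (Fin n) ℂ) (v : Fin n → ℂ) :
    ∀ i : ℕ, Continuous fun z : Fin n → ℂ => (lineP F z v).coeff i := by
  unfold lineP
  induction F using MvPolynomial.induction_on with
  | C a =>
    intro i
    simp only [aeval_C]
    exact continuous_const
  | add f g hf hg =>
    intro i
    simp only [map_add, Polynomial.coeff_add]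
    exact (hf i).add (hg i)
  | mul_X f j hf =>
    intro i
    simp only [map_mul, aeval_X, mul_add, Polynomial.coeff_add]
    refine Continuous.add ?_ ?_
    · simp only [Polynomial.coeff_mul_C]
      exact (hf i).mul (continuous_apply j)
    · cases i with
      | zero =>
        have h : ∀ z : Fin n → ℂ, ((aeval fun i => Polynomial.C (z i) + Polynomial.C (v i) *
            Polynomial.X) f * (Polynomial.C (v j) * Polynomial.X)).coeff 0 = 0 := by
          intro z
          rw [← mul_assoc, Polynomial.mul_coeff_zero]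
          simp
        simp only [h]
        exact continuous_const
      | succ i =>
        have h : ∀ z : Fin n → ℂ, ((aeval fun i => Polynomial.C (z i) + Polynomial.C (v i) *
            Polynomial.X) f * (Polynomial.C (v j) * Polynomial.X)).coeff (i + 1) =
            ((aeval fun i => Polynomial.C (z i) + Polynomial.C (v i) *
            Polynomial.X) f).coeff i * v j := by
          intro z
          rw [← mul_assoc, Polynomial.coeff_mul_X, Polynomial.coeff_mul_C]
        simp only [h]
        exact (hf i).mul continuous_const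

theorem fam_zero {n : ℕ} (f : MvPolynomial (Fin n) ℂ) (d : ℕ) :
    fam f d 0 = homogeneousComponent d f := by
  unfold fam
  rw [Finset.sum_eq_single 0]
  · simp
  · intro j _ hj
    simp [hj]
  · intro h
    simp at h

theorem fam_totalDegree {n : ℕ} (f : MvPolynomial (Fin n) ℂ) (d : ℕ) (τ : ℝ) :
    (fam f d τ).totalDegree ≤ d + f.totalDegree := by
  unfold fam
  refine totalDegree_finsetSum_le ?_
  intro j hj
  refine (totalDegree_mul _ _).trans ?_
  rw [totalDegree_C, zero_add]
  refine (homogeneousComponent_isHomogeneous (d + j) f).totalDegree_le.trans ?_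
  rw [Finset.mem_range] at hj
  omega

theorem fam_line_coeff_cont {n : ℕ} (f : MvPolynomial (Fin n) ℂ) (d : ℕ) (v : Fin n → ℂ) (i : ℕ) :
    Continuous fun x : ℝ × (Fin n → ℂ) => (lineP (fam f d x.1) x.2 v).coeff i := by
  have h : ∀ x : ℝ × (Fin n → ℂ), (lineP (fam f d x.1) x.2 v).coeff i =
      ∑ j ∈ Finset.range (f.totalDegree + 1), ((x.1 : ℂ) ^ j) *
        (lineP (homogeneousComponent (d + j) f) x.2 v).coeff i := by
    intro x
    unfold lineP fam
    rw [map_sum, Polynomial.finsetSum_coeff]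
    refine Finset.sum_congr rfl fun j _ => ?_
    rw [map_mul, aeval_C]
    exact Polynomial.coeff_C_mul _
  simp only [h]
  refine continuous_finsetSum _ fun j _ => ?_
  refine Continuous.mul ?_ ?_
  · exact (Complex.continuous_ofReal.comp continuous_fst).pow j
  · exact (lineP_coeff_cont _ v i).comp continuous_snd

/-- Along the lines in the direction `v` through the points near `p`, for small `τ`: the polynomial
`lineP (fam f d τ) z v` in `s` has degree at most `N = totalDegree f` and its coefficients are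
continuous functions of `(τ, z)`; so `exists_bound` applies with `δ = |a_m(0, p)| / 2`;
`(lineP F p v)(s) = F(p + s v)` and `fam f d 0 = f_d`. -/
theorem exists_line_bound {n : ℕ} (f : MvPolynomial (Fin n) ℂ) (d m : ℕ) (p v : Fin n → ℂ)
    (hm : (lineP (homogeneousComponent d f) p v).coeff m ≠ 0) :
    ∃ ρ : ℝ, 0 < ρ ∧ ∀ c : ℝ, 0 < c → c * m < 1 → ∃ C : ENNReal, C ≠ ⊤ ∧
      ∀ (τ : ℝ) (z : Fin n → ℂ), |τ| < ρ → ‖z - p‖ < ρ →
      ∫⁻ s in Metric.ball (0 : ℂ) ρ, pw (fam f d τ) c (z + s • v) ≤ C := by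
  set N : ℕ := d + f.totalDegree with hN
  set a : ℕ → ℝ × (Fin n → ℂ) → ℂ := fun i x => (lineP (fam f d x.1) x.2 v).coeff i with ha
  have hac : ∀ i, Continuous (a i) := fun i => fam_line_coeff_cont f d v i
  have ham : a m (0, p) ≠ 0 := by
    rw [ha]
    simp only [fam_zero]
    exact hm
  set δ : ℝ := ‖a m (0, p)‖ / 2 with hδ
  have hδ0 : 0 < δ := by
    have := norm_pos_iff.mpr ham
    positivity
  set B : ℝ := ∑ i ∈ Finset.range (N + 1), (‖a i (0, p)‖ + 1) with hB
  have hB0 : 0 ≤ B := Finset.sum_nonneg fun i _ => by positivity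
  obtain ⟨ρ₁, hρ₁, H⟩ := exists_bound N m hδ0 hB0
  have h1 : ∀ᶠ x in 𝓝 ((0 : ℝ), p), ∀ i ∈ Finset.range (N + 1), ‖a i x‖ ≤ ‖a i (0, p)‖ + 1 := by
    rw [Filter.eventually_all_finset]
    intro i _
    have h2 : Tendsto (fun x => ‖a i x‖) (𝓝 ((0 : ℝ), p)) (𝓝 ‖a i (0, p)‖) :=
      ((hac i).norm).tendsto _
    filter_upwards [h2.eventually (gt_mem_nhds (lt_add_one ‖a i (0, p)‖))] with x hx
    exact hx.le
  have h3 : ∀ᶠ x in 𝓝 ((0 : ℝ), p), δ ≤ ‖a m x‖ := by
    have h2 : Tendsto (fun x => ‖a m x‖) (𝓝 ((0 : ℝ), p)) (𝓝 ‖a m (0, p)‖) :=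
      ((hac m).norm).tendsto _
    have h4 : δ < ‖a m (0, p)‖ := by
      have := norm_pos_iff.mpr ham
      rw [hδ]
      linarith
    filter_upwards [h2.eventually (lt_mem_nhds h4)] with x hx
    exact hx.le
  obtain ⟨ρ₂, hρ₂, H2⟩ := Metric.eventually_nhds_iff_ball.mp (h1.and h3)
  refine ⟨min ρ₁ ρ₂, lt_min hρ₁ hρ₂, ?_⟩
  intro c hc hcm
  obtain ⟨C, hC, H3⟩ := H c hc hcm
  refine ⟨C, hC, ?_⟩
  intro τ z hτ hz
  have hx : ((τ, z) : ℝ × (Fin n → ℂ)) ∈ Metric.ball ((0 : ℝ), p) ρ₂ := by
    rw [Metric.mem_ball, Prod.dist_eq]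
    refine max_lt ?_ ?_
    · rw [Real.dist_eq, sub_zero]
      exact hτ.trans_le (min_le_right _ _)
    · rw [dist_eq_norm]
      exact hz.trans_le (min_le_right _ _)
  obtain ⟨h5, h6⟩ := H2 _ hx
  have h7 : (lineP (fam f d τ) z v).natDegree ≤ N :=
    (lineP_natDegree _ _ _).trans (fam_totalDegree f d τ)
  have h8 : ∀ i, ‖(lineP (fam f d τ) z v).coeff i‖ ≤ B := by
    intro i
    by_cases hi : i ∈ Finset.range (N + 1)
    · refine (h5 i hi).trans ?_
      exact Finset.single_le_sum (f := fun i => ‖a i (0, p)‖ + 1) (fun i _ => by positivity) hi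
    · rw [Finset.mem_range] at hi
      rw [Polynomial.coeff_eq_zero_of_natDegree_lt (by omega), norm_zero]
      exact hB0
  have h9 := H3 (lineP (fam f d τ) z v) h7 h8 h6
  refine le_trans ?_ h9
  refine (lintegral_mono_set (Metric.ball_subset_ball (min_le_left _ _))).trans ?_
  refine le_of_eq ?_
  refine lintegral_congr fun s => ?_
  unfold pw
  rw [lineP_eval]

end YH

end MPb07157
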