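import Pool.Agent.Lib.MP_b07157_agYH.A5
import Pool.Agent.Lib.MP_b07157_agI.Lc

/-!
# The log canonical threshold of a germ whose tangent cone has points of small multiplicity
-/

noncomputable section

namespace MPb07157

open MeasureTheory MvPolynomial Filter Topology Pointwise

namespace YH

namespace A6A

theorem eval_smul_hom {n e : ℕ} {p : MvPolynomial (Fin n) ℂ} (h : p.IsHomogeneous e) (c : ℂ)
    (q : Fin n → ℂ) : eval (c • q) p = c ^ e * eval q p := by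
  rw [eval_eq', eval_eq', Finset.mul_sum]
  refine Finset.sum_congr rfl fun m hm => ?_
  have h1 : ∑ i, m i = e := by
    have h2 := h (mem_support_iff.1 hm)
    rw [← h2]
    simp [Finsupp.weight_apply, Finsupp.sum_fintype]
  have h3 : ∏ i, (c • q) i ^ m i = c ^ e * ∏ i, q i ^ m i := by
    rw [← h1, ← Finset.prod_pow_eq_pow_sum, ← Finset.prod_mul_distrib]
    refine Finset.prod_congr rfl fun i _ => ?_
    rw [Pi.smul_apply, smul_eq_mul, mul_pow]
  rw [h3]
  ring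

theorem eval_fam {n : ℕ} {f : MvPolynomial (Fin n) ℂ} {d : ℕ}
    (hlow : ∀ j < d, homogeneousComponent j f = 0) (τ : ℝ) (z : Fin n → ℂ) :
    eval (τ • z) f = (τ : ℂ) ^ d * eval z (fam f d τ) := by
  have hs : f = ∑ i ∈ Finset.range (d + (f.totalDegree + 1)), homogeneousComponent i f := by
    conv_lhs => rw [← sum_homogeneousComponent f]
    refine Finset.sum_subset (Finset.range_mono (by omega)) fun i _ hi => ?_
    rw [Finset.mem_range] at hi
    exact homogeneousComponent_eq_zero _ _ (by omega)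
  have hz : τ • z = (τ : ℂ) • z := by
    funext i
    rw [Pi.smul_apply, Pi.smul_apply, Complex.real_smul, smul_eq_mul]
  have h1 : eval (τ • z) f = ∑ i ∈ Finset.range (d + (f.totalDegree + 1)),
      (τ : ℂ) ^ i * eval z (homogeneousComponent i f) := by
    conv_lhs => rw [hs]
    rw [map_sum]
    refine Finset.sum_congr rfl fun i _ => ?_
    rw [hz, eval_smul_hom (homogeneousComponent_isHomogeneous i f)]
  rw [h1, Finset.sum_range_add, Finset.sum_eq_zero (fun i hi => by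
    rw [hlow i (Finset.mem_range.1 hi), map_zero, mul_zero]), zero_add]
  unfold fam
  rw [map_sum, Finset.mul_sum]
  refine Finset.sum_congr rfl fun j _ => ?_
  rw [map_mul, eval_C, pow_add]
  ring

theorem pw_smul {n : ℕ} {f : MvPolynomial (Fin n) ℂ} {d : ℕ}
    (hlow : ∀ j < d, homogeneousComponent j f = 0) {τ : ℝ} (hτ : 0 < τ) (c : ℝ)
    (z : Fin n → ℂ) :
    pw f c (τ • z) = ENNReal.ofReal ((τ ^ d) ^ (-(2 * c))) * pw (fam f d τ) c z := by
  unfold pw
  rw [eval_fam hlow, norm_mul, norm_pow, Complex.norm_real, Real.norm_of_nonneg hτ.le,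
    Real.mul_rpow (by positivity) (norm_nonneg _), ENNReal.ofReal_mul (by positivity)]

theorem finrank_eq (n : ℕ) : Module.finrank ℝ (Fin n → ℂ) = 2 * n := by
  rw [Module.finrank_pi_fintype ℝ]
  simp [Complex.finrank_real_complex, mul_comm]

theorem setLIntegral_smul {n : ℕ} (g : (Fin n → ℂ) → ENNReal) (S : Set (Fin n → ℂ)) {τ : ℝ} (hτ : 0 < τ) :
    ∫⁻ x in τ • S, g x = ENNReal.ofReal (τ ^ (2 * n)) * ∫⁻ z in S, g (τ • z) := by
  set e : (Fin n → ℂ) ≃ᵐ (Fin n → ℂ) :=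
    (Homeomorph.smul (isUnit_iff_ne_zero.2 hτ.ne').unit).toMeasurableEquiv with he
  have hex : ∀ x, e x = τ • x := fun x => rfl
  have h1 := Measure.map_addHaar_smul (volume : Measure (Fin n → ℂ)) hτ.ne'
  rw [finrank_eq] at h1
  have hpre : e ⁻¹' (τ • S) = S := by
    ext x
    rw [Set.mem_preimage, hex, Set.smul_mem_smul_set_iff₀ hτ.ne']
  have h2 : ∫⁻ z in S, g (τ • z) =
      ENNReal.ofReal |(τ ^ (2 * n))⁻¹| * ∫⁻ x in τ • S, g x := by
    have h3 : ∫⁻ x in τ • S, g x ∂(Measure.map e volume) = ∫⁻ z in S, g (τ • z) := by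
      rw [e.measurableEmbedding.restrict_map, e.measurableEmbedding.lintegral_map, hpre]
      rfl
    rw [← h3]
    have h4 : Measure.map e volume = ENNReal.ofReal |(τ ^ (2 * n))⁻¹| •
        (volume : Measure (Fin n → ℂ)) := h1
    rw [h4, Measure.restrict_smul, lintegral_smul_measure, smul_eq_mul]
  rw [h2, ← mul_assoc, ← ENNReal.ofReal_mul (by positivity), abs_of_pos (by positivity),
    mul_inv_cancel₀ (by positivity), ENNReal.ofReal_one, one_mul]

/-- The shell. -/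
def sh (n : ℕ) : Set (Fin n → ℂ) := {z | 1 / 2 ≤ ‖z‖ ∧ ‖z‖ ≤ 1}

theorem ball_sub {n : ℕ} {ρ : ℝ} (hρ : 0 < ρ) : Metric.ball (0 : Fin n → ℂ) ρ ⊆
    {0} ∪ ⋃ k : ℕ, (ρ * (1 / 2) ^ k) • sh n := by
  intro x hx
  rw [mem_ball_zero_iff] at hx
  by_cases h0 : x = 0
  · exact Or.inl h0
  · right
    have hx0 : 0 < ‖x‖ := norm_pos_iff.2 h0
    obtain ⟨k, h1, h2⟩ := exists_nat_pow_near_of_lt_one (x := ‖x‖ / ρ) (y := (1 / 2 : ℝ))
      (by positivity) ((div_le_one hρ).2 hx.le) (by norm_num) (by norm_num)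
    rw [Set.mem_iUnion]
    refine ⟨k, ?_⟩
    have hτ : 0 < ρ * (1 / 2 : ℝ) ^ k := by positivity
    rw [Set.mem_smul_set_iff_inv_smul_mem₀ hτ.ne']
    have h3 : ‖(ρ * (1 / 2 : ℝ) ^ k)⁻¹ • x‖ = ‖x‖ / (ρ * (1 / 2 : ℝ) ^ k) := by
      rw [norm_smul, norm_inv, Real.norm_of_nonneg hτ.le, inv_mul_eq_div]
    show 1 / 2 ≤ ‖(ρ * (1 / 2 : ℝ) ^ k)⁻¹ • x‖ ∧ ‖(ρ * (1 / 2 : ℝ) ^ k)⁻¹ • x‖ ≤ 1
    rw [h3]
    constructor
    · rw [le_div_iff₀ hτ]
      rw [lt_div_iff₀ hρ, pow_succ] at h1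
      linarith
    · rw [div_le_one hτ]
      rw [div_le_iff₀ hρ] at h2
      linarith

theorem pow_eq {n d : ℕ} {c ρ : ℝ} (hρ : 0 < ρ) (k : ℕ) :
    (ρ * (1 / 2 : ℝ) ^ k) ^ (2 * n) * ((ρ * (1 / 2 : ℝ) ^ k) ^ d) ^ (-(2 * c)) =
      ρ ^ (2 * (n : ℝ) - 2 * (d * c)) * ((1 / 2 : ℝ) ^ (2 * (n : ℝ) - 2 * (d * c))) ^ k := by
  have hτ : 0 < ρ * (1 / 2 : ℝ) ^ k := by positivity
  have h1 : (ρ * (1 / 2 : ℝ) ^ k) ^ (2 * n) * ((ρ * (1 / 2 : ℝ) ^ k) ^ d) ^ (-(2 * c)) =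
      (ρ * (1 / 2 : ℝ) ^ k) ^ (2 * (n : ℝ) - 2 * (d * c)) := by
    rw [← Real.rpow_natCast _ (2 * n), ← Real.rpow_natCast _ d, ← Real.rpow_mul hτ.le,
      ← Real.rpow_add hτ]
    congr 1
    push_cast
    ring
  rw [h1, Real.mul_rpow hρ.le (by positivity), ← Real.rpow_natCast (1 / 2 : ℝ) k,
    ← Real.rpow_mul (by norm_num), mul_comm (k : ℝ), Real.rpow_mul (by norm_num),
    Real.rpow_natCast]

end A6A

open A6A in
/-- **The log canonical threshold** of a germ of multiplicity `d` in `n` variables at the origin is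
at least `n / d`, if all points of its projectivized tangent cone have multiplicity at most `d / n`.
With `τ = ρ 2^(-k)` and `f(τ z) = τ^d (fam f d τ)(z)`, the integral of `|f|^(-2c)` over
`τ/2 ≤ ‖x‖ ≤ τ` is `τ^(2n - 2dc)` times the one in `exists_shell_bound`; the ball of radius `ρ` is
covered by these shells and the origin, and the sum of the `2^(-k(2n - 2dc))` is finite. -/
theorem hasLct_of_mult {n : ℕ} (hn : 0 < n) {f : MvPolynomial (Fin n) ℂ} {d : ℕ} (hd : 0 < d)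
    (hlow : ∀ j < d, homogeneousComponent j f = 0)
    (h : ∀ p : Fin n → ℂ, p ≠ 0 → ∃ m : ℕ, m * n ≤ d ∧ MultLe (homogeneousComponent d f) p m) :
    Lct.HasLct f ((n : ℝ) / d) := by
  obtain ⟨r, hr, hb⟩ := exists_shell_bound hn f hd h
  refine ⟨r / 2, half_pos hr, fun c hc hcn => ?_⟩
  obtain ⟨C, hC, hCb⟩ := hb c hc hcn
  set ρ := r / 2 with hρ
  have hρ0 : 0 < ρ := half_pos hr
  have hmeas : Measurable fun x : Fin n → ℂ => ‖eval x f‖ ^ (-(2 * c)) :=
    ((MvPolynomial.continuous_eval f).norm.measurable).pow_const _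
  refine ⟨hmeas.aestronglyMeasurable, ?_⟩
  unfold HasFiniteIntegral
  have hen : ∀ x : Fin n → ℂ, ‖‖eval x f‖ ^ (-(2 * c))‖ₑ = pw f c x := fun x => by
    unfold pw
    rw [Real.enorm_of_nonneg (Real.rpow_nonneg (norm_nonneg _) _)]
  simp only [hen]
  set e : ℝ := 2 * (n : ℝ) - 2 * (d * c) with he
  have he0 : 0 < e := by
    have hd' : (0 : ℝ) < d := by exact_mod_cast hd
    rw [lt_div_iff₀ hd'] at hcn
    rw [he]
    nlinarith
  set q : ENNReal := ENNReal.ofReal ((1 / 2 : ℝ) ^ e) with hq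
  have hq1 : q < 1 := by
    rw [hq, ENNReal.ofReal_lt_one]
    exact Real.rpow_lt_one (by norm_num) (by norm_num) he0
  have hshell : ∀ k : ℕ, ∫⁻ x in (ρ * (1 / 2) ^ k) • sh n, pw f c x ≤
      ENNReal.ofReal (ρ ^ e) * C * q ^ k := by
    intro k
    have hτ : 0 < ρ * (1 / 2 : ℝ) ^ k := by positivity
    have hτr : |ρ * (1 / 2 : ℝ) ^ k| < r := by
      rw [abs_of_pos hτ]
      have h1 : (1 / 2 : ℝ) ^ k ≤ 1 := pow_le_one₀ (by norm_num) (by norm_num)
      nlinarith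
    rw [setLIntegral_smul _ (sh n) hτ]
    simp only [pw_smul hlow hτ]
    rw [lintegral_const_mul' _ _ ENNReal.ofReal_ne_top, ← mul_assoc,
      ← ENNReal.ofReal_mul (by positivity), pow_eq hρ0 k, ← he,
      ENNReal.ofReal_mul (by positivity), ENNReal.ofReal_pow (by positivity), ← hq]
    calc ENNReal.ofReal (ρ ^ e) * q ^ k * ∫⁻ z in sh n, pw (fam f d (ρ * (1 / 2) ^ k)) c z
        ≤ ENNReal.ofReal (ρ ^ e) * q ^ k * C := by
          gcongr
          exact hCb _ hτr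
      _ = _ := by ring
  have hzero : ∫⁻ x in ({0} : Set (Fin n → ℂ)), pw f c x = 0 := by
    have : Nonempty (Fin n) := ⟨⟨0, hn⟩⟩
    have hnt : Nontrivial (Fin n → ℂ) := inferInstance
    have h1 : (volume : Measure (Fin n → ℂ)) {0} = 0 := measure_singleton _
    exact setLIntegral_measure_zero _ _ h1
  calc ∫⁻ x in Metric.ball (0 : Fin n → ℂ) ρ, pw f c x
      ≤ ∫⁻ x in {0} ∪ ⋃ k : ℕ, (ρ * (1 / 2) ^ k) • sh n, pw f c x :=
        lintegral_mono_set (ball_sub hρ0)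
    _ ≤ (∫⁻ x in ({0} : Set (Fin n → ℂ)), pw f c x) +
          ∫⁻ x in ⋃ k : ℕ, (ρ * (1 / 2) ^ k) • sh n, pw f c x := lintegral_union_le _ _ _
    _ ≤ 0 + ∑' k : ℕ, ∫⁻ x in (ρ * (1 / 2) ^ k) • sh n, pw f c x := by
        rw [hzero]
        exact add_le_add le_rfl (lintegral_iUnion_le _ _)
    _ ≤ ∑' k : ℕ, ENNReal.ofReal (ρ ^ e) * C * q ^ k := by
        rw [zero_add]
        exact ENNReal.tsum_le_tsum hshell
    _ < ⊤ := by
        rw [ENNReal.tsum_mul_left, ENNReal.tsum_geometric]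
        refine ENNReal.mul_lt_top (ENNReal.mul_lt_top ENNReal.ofReal_lt_top hC.lt_top) ?_
        rw [ENNReal.inv_lt_top, tsub_pos_iff_lt]
        exact hq1

end YH

end MPb07157
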