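import Pool.Agent.Lib.MP_b07157_agYH.Defs

/-!
# Points of multiplicity at most two
-/

noncomputable section

namespace MPb07157

open MvPolynomial

namespace YH

variable {n : ℕ}

private theorem a7_comm (i j : Fin n) (P : MvPolynomial (Fin n) ℂ) :
    pderiv i (pderiv j P) = pderiv j (pderiv i P) := by
  classical
  by_cases h : i = j
  · rw [h]
  · ext c
    rw [coeff_pderiv, coeff_pderiv, coeff_pderiv, coeff_pderiv]
    have h1 : (c + Finsupp.single i 1 : Fin n →₀ ℕ) j = c j := by
      rw [Finsupp.add_apply, Finsupp.single_apply, if_neg h, add_zero]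
    have h2 : (c + Finsupp.single j 1 : Fin n →₀ ℕ) i = c i := by
      rw [Finsupp.add_apply, Finsupp.single_apply, if_neg (Ne.symm h), add_zero]
    rw [h1, h2, add_right_comm]
    ring

private theorem a7_coeff (F : MvPolynomial (Fin n) ℂ) (p v : Fin n → ℂ) :
    (lineP F p v).coeff 0 = eval p F := by
  have h : (Polynomial.evalRingHom (0 : ℂ)).comp (aeval (R := ℂ)
      (fun i => Polynomial.C (p i) + Polynomial.C (v i) * Polynomial.X)).toRingHom = eval p := by
    apply MvPolynomial.ringHom_ext
    · intro a
      simp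
    · intro k
      simp
  rw [Polynomial.coeff_zero_eq_eval_zero]
  exact DFunLike.congr_fun h F

private theorem a7_deriv (F : MvPolynomial (Fin n) ℂ) (p v : Fin n → ℂ) :
    Polynomial.derivative (lineP F p v) =
      ∑ i, Polynomial.C (v i) * lineP (pderiv i F) p v := by
  unfold lineP
  induction F using MvPolynomial.induction_on with
  | C a => simp
  | add f g hf hg =>
    rw [map_add, Polynomial.derivative_add, hf, hg, ← Finset.sum_add_distrib]
    refine Finset.sum_congr rfl fun i _ => ?_
    rw [map_add, map_add, mul_add]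
  | mul_X f k hf =>
    rw [map_mul, Polynomial.derivative_mul, hf, aeval_X, Finset.sum_mul]
    have h1 : Polynomial.derivative (Polynomial.C (p k) + Polynomial.C (v k) * Polynomial.X) =
        Polynomial.C (v k) := by simp
    have h2 : ∀ i, Polynomial.C (v i) * aeval (fun i => Polynomial.C (p i) +
        Polynomial.C (v i) * Polynomial.X) (pderiv i (f * X k)) =
        Polynomial.C (v i) * aeval (fun i => Polynomial.C (p i) +
        Polynomial.C (v i) * Polynomial.X) (pderiv i f) * (Polynomial.C (p k) +
          Polynomial.C (v k) * Polynomial.X) + (if i = k then Polynomial.C (v k) *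
            aeval (fun i => Polynomial.C (p i) + Polynomial.C (v i) * Polynomial.X) f else 0) := by
      intro i
      rw [pderiv_mul, pderiv_X, map_add, map_mul, map_mul, aeval_X]
      by_cases hik : i = k
      · rw [if_pos hik, hik, Pi.single_eq_same, map_one]
        ring
      · rw [if_neg hik, Pi.single_eq_of_ne (Ne.symm hik), map_zero]
        ring
    rw [h1, Finset.sum_congr rfl fun i _ => h2 i, Finset.sum_add_distrib, Finset.sum_ite_eq',
      if_pos (Finset.mem_univ k)]
    ring

private theorem a7_coeff_one (F : MvPolynomial (Fin n) ℂ) (p v : Fin n → ℂ) :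
    (lineP F p v).coeff 1 = ∑ i, v i * eval p (pderiv i F) := by
  have h := congrArg (fun q => Polynomial.coeff q 0) (a7_deriv F p v)
  simp only [Polynomial.coeff_derivative, Polynomial.finsetSum_coeff, Polynomial.coeff_C_mul,
    a7_coeff] at h
  rw [← h]
  push_cast
  ring

private theorem a7_coeff_two (F : MvPolynomial (Fin n) ℂ) (p v : Fin n → ℂ) :
    (lineP F p v).coeff 2 * 2 = ∑ i, ∑ j, v i * v j * eval p (pderiv j (pderiv i F)) := by
  have h := congrArg (fun q => Polynomial.coeff q 1) (a7_deriv F p v)
  simp only [Polynomial.coeff_derivative, Polynomial.finsetSum_coeff, Polynomial.coeff_C_mul,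
    a7_coeff_one] at h
  have h2 : (lineP F p v).coeff 2 * 2 = (lineP F p v).coeff (1 + 1) * (((1 : ℕ) : ℂ) + 1) := by
    norm_num
  rw [h2, h]
  refine Finset.sum_congr rfl fun i _ => ?_
  rw [Finset.mul_sum]
  refine Finset.sum_congr rfl fun j _ => ?_
  ring

/-- A point outside the zeros has multiplicity `0` (take `v = 0`, the constant coefficient is
`F(p)`). -/
theorem multLe_zero {F : MvPolynomial (Fin n) ℂ} {p : Fin n → ℂ} (h : eval p F ≠ 0) :
    MultLe F p 0 := by
  refine ⟨0, 0, le_refl 0, ?_⟩
  rw [a7_coeff]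
  exact h

/-- If a first derivative does not vanish, the multiplicity is at most `1` (take the direction of
`X_i`). -/
theorem multLe_one {F : MvPolynomial (Fin n) ℂ} {p : Fin n → ℂ} {i : Fin n}
    (h : eval p (pderiv i F) ≠ 0) : MultLe F p 1 := by
  classical
  refine ⟨Pi.single i 1, 1, le_refl 1, ?_⟩
  rw [a7_coeff_one, Finset.sum_eq_single i, Pi.single_eq_same, one_mul]
  · exact h
  · intro j _ hj
    rw [Pi.single_eq_of_ne hj, zero_mul]
  · intro hi
    exact absurd (Finset.mem_univ i) hi

/-- If a second derivative does not vanish, the multiplicity is at most `2`: the coefficient of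
`s²` in `F(p + s v)` is `(1/2) ∑ v_i v_j F_ij(p)`; take `v = e_i`, `e_j` or `e_i + e_j`. -/
theorem multLe_two {F : MvPolynomial (Fin n) ℂ} {p : Fin n → ℂ} {i j : Fin n}
    (h : eval p (pderiv i (pderiv j F)) ≠ 0) : MultLe F p 2 := by
  classical
  by_contra hcon
  have hQ : ∀ v : Fin n → ℂ, ∑ a, ∑ b, v a * v b * eval p (pderiv b (pderiv a F)) = 0 := by
    intro v
    rw [← a7_coeff_two]
    by_contra h2
    exact hcon ⟨v, 2, le_refl 2, fun h3 => h2 (by rw [h3, zero_mul])⟩
  obtain ⟨B, hB⟩ : ∃ B : (Fin n → ℂ) → (Fin n → ℂ) → ℂ, B = fun u v =>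
    ∑ a, ∑ b, u a * v b * eval p (pderiv b (pderiv a F)) := ⟨_, rfl⟩
  have hadd1 : ∀ u u' v, B (u + u') v = B u v + B u' v := by
    intro u u' v
    rw [hB]
    simp only [Pi.add_apply, add_mul, Finset.sum_add_distrib]
  have hadd2 : ∀ u v v', B u (v + v') = B u v + B u v' := by
    intro u v v'
    rw [hB]
    simp only [Pi.add_apply, add_mul, mul_add, Finset.sum_add_distrib]
  have hs : ∀ a b : Fin n, B (Pi.single a 1) (Pi.single b 1) =
      eval p (pderiv b (pderiv a F)) := by
    intro a b
    rw [hB]
    simp only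
    rw [Finset.sum_eq_single a, Finset.sum_eq_single b, Pi.single_eq_same, Pi.single_eq_same,
      one_mul, one_mul]
    · intro c _ hc
      rw [Pi.single_eq_of_ne hc, mul_zero, zero_mul]
    · intro hb
      exact absurd (Finset.mem_univ b) hb
    · intro c _ hc
      refine Finset.sum_eq_zero fun d _ => ?_
      rw [Pi.single_eq_of_ne hc, zero_mul, zero_mul]
    · intro ha
      exact absurd (Finset.mem_univ a) ha
  have hQ' : ∀ v, B v v = 0 := by
    intro v
    rw [hB]
    exact hQ v
  have h1 := hQ' (Pi.single i 1 + Pi.single j 1)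
  rw [hadd1, hadd2, hadd2, hQ', hQ', hs, hs, a7_comm j i] at h1
  apply h
  have h2 : (2 : ℂ) * eval p (pderiv i (pderiv j F)) = 0 := by linear_combination h1
  exact (mul_eq_zero.1 h2).resolve_left two_ne_zero

theorem MultLe.mono {F : MvPolynomial (Fin n) ℂ} {p : Fin n → ℂ} {m m' : ℕ} (h : MultLe F p m)
    (hm : m ≤ m') : MultLe F p m' := by
  obtain ⟨v, k, hk, hv⟩ := h
  exact ⟨v, k, hk.trans hm, hv⟩

end YH

end MPb07157
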