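import Pool.Agent.Lib.MP_b07157_agYH.Defs

/-!
# Sublevel sets of a polynomial in one variable
-/

noncomputable section

namespace MPb07157

namespace YH

theorem eval_bound {N : ℕ} {B : ℝ} (hB : 0 ≤ B) {g : Polynomial ℂ} (hN : g.natDegree ≤ N)
    (hg : ∀ i, ‖g.coeff i‖ ≤ B) {s : ℂ} (hs : ‖s‖ ≤ 1) : ‖g.eval s‖ ≤ (N + 1) * B := by
  rw [Polynomial.eval_eq_sum_range' (Nat.lt_succ_of_le hN)]
  refine (norm_sum_le _ _).trans ?_
  have h1 : ∀ i ∈ Finset.range (N + 1), ‖g.coeff i * s ^ i‖ ≤ B := by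
    intro i _
    rw [norm_mul, norm_pow]
    calc ‖g.coeff i‖ * ‖s‖ ^ i ≤ B * 1 :=
          mul_le_mul (hg i) (pow_le_one₀ (norm_nonneg _) hs) (pow_nonneg (norm_nonneg _) _) hB
      _ = B := mul_one _
  refine (Finset.sum_le_sum h1).trans ?_
  rw [Finset.sum_const, Finset.card_range, nsmul_eq_mul]
  push_cast
  exact le_rfl

theorem quot_coeff_bound {N : ℕ} {B : ℝ} (hB : 0 ≤ B) {g : Polynomial ℂ} (hN : g.natDegree ≤ N)
    (hg : ∀ i, ‖g.coeff i‖ ≤ B) {s : ℂ} (hs : ‖s‖ ≤ 1) (i : ℕ) :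
    ‖(g /ₘ (Polynomial.X - Polynomial.C s)).coeff i‖ ≤ (N + 1) * B := by
  rw [Polynomial.coeff_divByMonic_X_sub_C]
  refine (norm_sum_le _ _).trans ?_
  have h1 : ∀ j ∈ Finset.Icc (i + 1) g.natDegree, ‖s ^ (j - (i + 1)) * g.coeff j‖ ≤ B := by
    intro j _
    rw [norm_mul, norm_pow]
    calc ‖s‖ ^ (j - (i + 1)) * ‖g.coeff j‖ ≤ 1 * B :=
          mul_le_mul (pow_le_one₀ (norm_nonneg _) hs) (hg j) (norm_nonneg _) zero_le_one
      _ = B := one_mul _
  refine (Finset.sum_le_sum h1).trans ?_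
  rw [Finset.sum_const, Nat.card_Icc, nsmul_eq_mul]
  refine mul_le_mul_of_nonneg_right ?_ hB
  have h2 : g.natDegree + 1 - (i + 1) ≤ N + 1 := by omega
  exact_mod_cast h2

theorem quot_coeff_ge {N m : ℕ} {B δ ρ : ℝ} (hδ : 0 < δ) (hB : 0 ≤ B) {g : Polynomial ℂ}
    (hN : g.natDegree ≤ N) (hg : ∀ i, ‖g.coeff i‖ ≤ B) (hm : δ ≤ ‖g.coeff (m + 1)‖)
    (hρ1 : ρ ≤ 1) (hρ2 : ((N + 1) * B) * ρ ≤ δ / 2) {s : ℂ} (hs : ‖s‖ ≤ ρ) :
    δ / 2 ≤ ‖(g /ₘ (Polynomial.X - Polynomial.C s)).coeff m‖ := by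
  rw [Polynomial.coeff_divByMonic_X_sub_C]
  have hmd : m + 1 ≤ g.natDegree := by
    by_contra h
    have h1 : g.coeff (m + 1) = 0 := Polynomial.coeff_eq_zero_of_natDegree_lt (by omega)
    rw [h1, norm_zero] at hm
    linarith
  have hmem : m + 1 ∈ Finset.Icc (m + 1) g.natDegree := Finset.mem_Icc.2 ⟨le_rfl, hmd⟩
  rw [← Finset.add_sum_erase _ _ hmem, Nat.sub_self, pow_zero, one_mul]
  have hρ0 : 0 ≤ ρ := (norm_nonneg _).trans hs
  have h1 : ∀ j ∈ (Finset.Icc (m + 1) g.natDegree).erase (m + 1),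
      ‖s ^ (j - (m + 1)) * g.coeff j‖ ≤ ρ * B := by
    intro j hj
    rw [Finset.mem_erase, Finset.mem_Icc] at hj
    rw [norm_mul, norm_pow]
    refine mul_le_mul ?_ (hg j) (norm_nonneg _) hρ0
    obtain ⟨l, hl⟩ : ∃ l, j - (m + 1) = l + 1 := ⟨j - (m + 1) - 1, by omega⟩
    rw [hl, pow_succ]
    calc ‖s‖ ^ l * ‖s‖ ≤ 1 * ρ :=
          mul_le_mul (pow_le_one₀ (norm_nonneg _) (hs.trans hρ1)) hs (norm_nonneg _) zero_le_one
      _ = ρ := one_mul _
  have h2 : ‖∑ j ∈ (Finset.Icc (m + 1) g.natDegree).erase (m + 1),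
      s ^ (j - (m + 1)) * g.coeff j‖ ≤ ((N + 1) * B) * ρ := by
    refine (norm_sum_le _ _).trans ((Finset.sum_le_sum h1).trans ?_)
    rw [Finset.sum_const, nsmul_eq_mul]
    have h3 : ((Finset.Icc (m + 1) g.natDegree).erase (m + 1)).card ≤ N + 1 := by
      refine (Finset.card_erase_le).trans ?_
      rw [Nat.card_Icc]
      omega
    have h4 : (((Finset.Icc (m + 1) g.natDegree).erase (m + 1)).card : ℝ) ≤ N + 1 := by
      exact_mod_cast h3
    calc (((Finset.Icc (m + 1) g.natDegree).erase (m + 1)).card : ℝ) * (ρ * B)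
        ≤ (N + 1) * (ρ * B) := mul_le_mul_of_nonneg_right h4 (mul_nonneg hρ0 hB)
      _ = ((N + 1) * B) * ρ := by ring
  have h5 := norm_sub_le_norm_add (g.coeff (m + 1))
    (∑ j ∈ (Finset.Icc (m + 1) g.natDegree).erase (m + 1), s ^ (j - (m + 1)) * g.coeff j)
  linarith

/-- **Sublevel sets.** If `|a_m| ≥ δ` and the coefficients of `g` are bounded by `B`, the set
`|g| ≤ ε` in a small disc is covered by `m` discs of radius `r`, if `C ε < r^m`. By induction on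
`m`: `m = 0` is clear for small `ρ` (`|g(s)| ≥ δ/2`). If `g` is small at `s₀`, then
`g(s) - g(s₀) = (s - s₀) q(s)`, so `|q(s)| ≤ 2 ε / r` if `g` is small at `s`, `|s - s₀| ≥ r`; the
coefficients of `q` are `q_i = ∑_{j > i} g_j s₀^{j-1-i}`, bounded by `(N + 1) B`, and
`|q_{m-1} - g_m| ≤ δ/2` for small `ρ ≥ |s₀|`. -/
theorem exists_cover (N m : ℕ) {δ B : ℝ} (hδ : 0 < δ) (hB : 0 ≤ B) :
    ∃ ρ : ℝ, 0 < ρ ∧ ∃ C : ℝ, 0 < C ∧ ∀ g : Polynomial ℂ, g.natDegree ≤ N →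
      (∀ i, ‖g.coeff i‖ ≤ B) → δ ≤ ‖g.coeff m‖ → ∀ ε r : ℝ, 0 ≤ ε → 0 < r → C * ε < r ^ m →
      ∃ T : Finset ℂ, T.card ≤ m ∧ ∀ s : ℂ, ‖s‖ ≤ ρ → ‖g.eval s‖ ≤ ε → ∃ t ∈ T, ‖s - t‖ < r := by
  classical
  have hK : 0 ≤ ((N : ℝ) + 1) * B := by positivity
  -- a small radius
  have hsmall : ∃ ρ : ℝ, 0 < ρ ∧ ρ ≤ 1 ∧ (((N : ℝ) + 1) * B) * ρ ≤ δ / 2 := by
    refine ⟨min 1 (δ / (2 * (((N : ℝ) + 1) * B + 1))), lt_min one_pos (by positivity),
      min_le_left _ _, ?_⟩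
    calc (((N : ℝ) + 1) * B) * min 1 (δ / (2 * (((N : ℝ) + 1) * B + 1)))
        ≤ (((N : ℝ) + 1) * B) * (δ / (2 * (((N : ℝ) + 1) * B + 1))) :=
          mul_le_mul_of_nonneg_left (min_le_right _ _) hK
      _ ≤ (((N : ℝ) + 1) * B + 1) * (δ / (2 * (((N : ℝ) + 1) * B + 1))) :=
          mul_le_mul_of_nonneg_right (by linarith) (by positivity)
      _ = δ / 2 := by
          field_simp
  induction m generalizing δ B with
  | zero =>
    obtain ⟨ρ, hρ, hρ1, hρ2⟩ := hsmall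
    refine ⟨ρ, hρ, 4 / δ, by positivity, ?_⟩
    intro g hN hg hm ε r hε hr hC
    refine ⟨∅, le_rfl, ?_⟩
    intro s hs hgs
    exfalso
    have h1 : g.eval s = (Polynomial.divX g).eval s * s + g.coeff 0 := by
      conv_lhs => rw [← Polynomial.divX_mul_X_add g]
      simp
    have h2 : ‖(Polynomial.divX g).eval s‖ ≤ (N + 1) * B := by
      refine eval_bound hB ?_ ?_ (hs.trans hρ1)
      · rw [Polynomial.natDegree_divX_eq_natDegree_tsub_one]
        omega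
      · intro i
        rw [Polynomial.coeff_divX]
        exact hg _
    have h3 : ‖(Polynomial.divX g).eval s * s‖ ≤ δ / 2 := by
      rw [norm_mul]
      calc ‖(Polynomial.divX g).eval s‖ * ‖s‖ ≤ ((N + 1) * B) * ρ :=
            mul_le_mul h2 hs (norm_nonneg _) hK
        _ ≤ δ / 2 := hρ2
    have h4 : ‖g.coeff 0‖ ≤ ‖g.eval s‖ + ‖(Polynomial.divX g).eval s * s‖ := by
      have h5 : g.coeff 0 = g.eval s - (Polynomial.divX g).eval s * s := by
        rw [h1]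
        ring
      conv_lhs => rw [h5]
      exact norm_sub_le _ _
    rw [pow_zero, div_mul_eq_mul_div, div_lt_one hδ] at hC
    linarith
  | succ m ih =>
    obtain ⟨ρ, hρ, hρ1, hρ2⟩ := hsmall
    have hB' : 0 ≤ ((N : ℝ) + 1) * B := hK
    have hsm : ∃ ρ : ℝ, 0 < ρ ∧ ρ ≤ 1 ∧ (((N : ℝ) + 1) * (((N : ℝ) + 1) * B)) * ρ ≤ δ / 2 / 2 := by
      refine ⟨min 1 (δ / (4 * (((N : ℝ) + 1) * (((N : ℝ) + 1) * B) + 1))),
        lt_min one_pos (by positivity), min_le_left _ _, ?_⟩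
      have hK2 : 0 ≤ ((N : ℝ) + 1) * (((N : ℝ) + 1) * B) := by positivity
      calc (((N : ℝ) + 1) * (((N : ℝ) + 1) * B)) *
            min 1 (δ / (4 * (((N : ℝ) + 1) * (((N : ℝ) + 1) * B) + 1)))
          ≤ (((N : ℝ) + 1) * (((N : ℝ) + 1) * B)) *
            (δ / (4 * (((N : ℝ) + 1) * (((N : ℝ) + 1) * B) + 1))) :=
            mul_le_mul_of_nonneg_left (min_le_right _ _) hK2
        _ ≤ (((N : ℝ) + 1) * (((N : ℝ) + 1) * B) + 1) *
            (δ / (4 * (((N : ℝ) + 1) * (((N : ℝ) + 1) * B) + 1))) :=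
            mul_le_mul_of_nonneg_right (by linarith) (by positivity)
        _ = δ / 2 / 2 := by
            field_simp
            norm_num
    obtain ⟨ρ', hρ', C', hC', H⟩ := ih (half_pos hδ) hB' (by positivity) hsm
    refine ⟨min ρ ρ', lt_min hρ hρ', 2 * C', by positivity, ?_⟩
    intro g hN hg hm ε r hε hr hC
    by_cases hne : ∃ s₀ : ℂ, ‖s₀‖ ≤ min ρ ρ' ∧ ‖g.eval s₀‖ ≤ ε
    · obtain ⟨s₀, hs₀, hgs₀⟩ := hne
      have hs1 : ‖s₀‖ ≤ ρ := hs₀.trans (min_le_left _ _)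
      set q : Polynomial ℂ := g /ₘ (Polynomial.X - Polynomial.C s₀) with hq
      have hqN : q.natDegree ≤ N := by
        rw [hq, Polynomial.natDegree_divByMonic _ (Polynomial.monic_X_sub_C _)]
        omega
      have hC2 : C' * (2 * ε / r) < r ^ m := by
        rw [← mul_div_assoc, div_lt_iff₀ hr, ← pow_succ]
        calc C' * (2 * ε) = 2 * C' * ε := by ring
          _ < r ^ (m + 1) := hC
      obtain ⟨T, hT, hT2⟩ := H q hqN (fun i => quot_coeff_bound hB hN hg (hs1.trans hρ1) i)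
        (quot_coeff_ge hδ hB hN hg hm hρ1 hρ2 hs1) (2 * ε / r) r (by positivity) hr hC2
      refine ⟨insert s₀ T, (Finset.card_insert_le _ _).trans (by omega), ?_⟩
      intro s hs hgs
      by_cases hsr : ‖s - s₀‖ < r
      · exact ⟨s₀, Finset.mem_insert_self _ _, hsr⟩
      · rw [not_lt] at hsr
        have h1 : g.eval s - g.eval s₀ = (s - s₀) * q.eval s := by
          have h2 := congrArg (Polynomial.eval s)
            (Polynomial.modByMonic_add_div g (Polynomial.X - Polynomial.C s₀))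
          rw [Polynomial.modByMonic_X_sub_C_eq_C_eval] at h2
          simp only [Polynomial.eval_add, Polynomial.eval_mul, Polynomial.eval_sub,
            Polynomial.eval_X, Polynomial.eval_C] at h2
          rw [← h2, hq]
          ring
        have h3 : ‖q.eval s‖ ≤ 2 * ε / r := by
          rw [le_div_iff₀ hr]
          calc ‖q.eval s‖ * r ≤ ‖q.eval s‖ * ‖s - s₀‖ :=
                mul_le_mul_of_nonneg_left hsr (norm_nonneg _)
            _ = ‖g.eval s - g.eval s₀‖ := by rw [h1, norm_mul, mul_comm]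
            _ ≤ ‖g.eval s‖ + ‖g.eval s₀‖ := norm_sub_le _ _
            _ ≤ 2 * ε := by linarith
        obtain ⟨t, ht, hst⟩ := hT2 s (hs.trans (min_le_right _ _)) h3
        exact ⟨t, Finset.mem_insert_of_mem ht, hst⟩
    · refine ⟨∅, by simp, ?_⟩
      intro s hs hgs
      exact absurd ⟨s, hs, hgs⟩ hne

end YH

end MPb07157
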