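import Pool.Agent.Lib.MP_b07157_agYH.A1

/-!
# The integral of a negative power of a polynomial in one variable
-/

noncomputable section

namespace MPb07157

open MeasureTheory

namespace YH

namespace A2aux

theorem half_rpow {c : ℝ} (j : ℕ) :
    ((1 / 2 : ℝ) ^ (j + 1)) ^ (-(2 * c)) = (2 : ℝ) ^ (2 * c * (j + 1)) := by
  have h1 : ((1 / 2 : ℝ) ^ (j + 1)) = (2 : ℝ) ^ (-((j : ℝ) + 1)) := by
    rw [Real.rpow_neg (by norm_num : (0 : ℝ) ≤ 2), one_div, inv_pow]
    congr 1
    have h2 : ((j : ℝ) + 1) = ((j + 1 : ℕ) : ℝ) := by push_cast; ring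
    rw [h2, Real.rpow_natCast]
  rw [h1, ← Real.rpow_mul (by norm_num : (0 : ℝ) ≤ 2)]
  congr 1
  ring

/-- The dyadic bound. -/
theorem pw_le {c : ℝ} (hc : 0 < c) {x : ℝ} (hx : 0 ≤ x) :
    ENNReal.ofReal (x ^ (-(2 * c))) ≤ 1 + ∑' j : ℕ,
      (if x ≤ (1 / 2 : ℝ) ^ j then ENNReal.ofReal ((2 : ℝ) ^ (2 * c * (j + 1))) else 0) := by
  rcases hx.eq_or_lt with h0 | h0
  · rw [← h0, Real.zero_rpow (by linarith), ENNReal.ofReal_zero]
    exact zero_le
  rcases lt_or_ge 1 x with h1 | h1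
  · refine le_trans ?_ (le_add_right le_rfl)
    have h2 : x ^ (-(2 * c)) ≤ 1 :=
      Real.rpow_le_one_of_one_le_of_nonpos h1.le (by linarith)
    calc ENNReal.ofReal (x ^ (-(2 * c))) ≤ ENNReal.ofReal 1 := ENNReal.ofReal_le_ofReal h2
      _ = 1 := ENNReal.ofReal_one
  · obtain ⟨j, hj1, hj2⟩ := exists_nat_pow_near_of_lt_one h0 h1
      (by norm_num : (0 : ℝ) < 1 / 2) (by norm_num)
    refine le_trans ?_ (le_add_left (ENNReal.le_tsum j))
    rw [if_pos hj2]
    refine ENNReal.ofReal_le_ofReal ?_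
    rw [← half_rpow]
    exact Real.rpow_le_rpow_of_nonpos (by positivity) hj1.le (by linarith)

theorem summable_aux {c C : ℝ} {m : ℕ} (hC : 0 < C) (hm : 0 < m) (h1 : c * m < 1) :
    Summable fun j : ℕ => (2 : ℝ) ^ (2 * c * (j + 1)) *
      (m * (((2 * C * (1 / 2 : ℝ) ^ j) ^ (1 / (m : ℝ))) ^ 2 * Real.pi)) := by
  have hm' : (0 : ℝ) < m := by exact_mod_cast hm
  have e : ∀ j : ℕ, (2 : ℝ) ^ (2 * c * (j + 1)) *
      (m * (((2 * C * (1 / 2 : ℝ) ^ j) ^ (1 / (m : ℝ))) ^ 2 * Real.pi)) =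
      ((2 : ℝ) ^ (2 * c) * (m * (((2 * C) ^ (1 / (m : ℝ))) ^ 2 * Real.pi))) *
        ((2 : ℝ) ^ (2 * c - 2 / (m : ℝ))) ^ j := by
    intro j
    have e1 : (2 : ℝ) ^ (2 * c * (j + 1)) = (2 : ℝ) ^ (2 * c) * ((2 : ℝ) ^ (2 * c)) ^ j := by
      rw [← Real.rpow_natCast, ← Real.rpow_mul (by norm_num), ← Real.rpow_add (by norm_num)]
      congr 1
      ring
    have e2 : (2 * C * (1 / 2 : ℝ) ^ j) ^ (1 / (m : ℝ)) =
        (2 * C) ^ (1 / (m : ℝ)) * ((2 : ℝ) ^ (-(1 / (m : ℝ)))) ^ j := by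
      rw [Real.mul_rpow (by positivity) (by positivity)]
      congr 1
      rw [← Real.rpow_natCast, ← Real.rpow_natCast, ← Real.rpow_mul (by norm_num),
        ← Real.rpow_mul (by norm_num), one_div (2 : ℝ), Real.inv_rpow (by norm_num),
        ← Real.rpow_neg (by norm_num)]
      congr 1
      ring
    have e3 : ((2 : ℝ) ^ (2 * c - 2 / (m : ℝ))) =
        (2 : ℝ) ^ (2 * c) * ((2 : ℝ) ^ (-(1 / (m : ℝ)))) ^ 2 := by
      rw [← Real.rpow_natCast, ← Real.rpow_mul (by norm_num), ← Real.rpow_add (by norm_num)]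
      congr 1
      push_cast
      ring
    rw [e1, e2, e3, mul_pow, mul_pow, ← pow_mul, ← pow_mul, mul_comm j 2]
    ring
  simp only [e]
  refine (summable_geometric_of_lt_one (by positivity) ?_).mul_left _
  refine Real.rpow_lt_one_of_one_lt_of_neg (by norm_num) ?_
  have h2 : c < 1 / m := by rw [lt_div_iff₀ hm']; exact h1
  have h3 : (2 : ℝ) / m = 2 * (1 / m) := by ring
  rw [h3]
  linarith

end A2aux

open A2aux

/-- By `exists_cover`, the measure of `{|g| ≤ ε}` in the disc is `≤ C' ε^(2/m)` (for `m = 0`, it is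
empty for small `ε`), so the integral of `|g|^(-2c)` is bounded by a constant if `c m < 1` (sum over
the sets `2^{-k-1} < |g| ≤ 2^{-k}`; the set `g = 0` does not matter as `0 ^ (-2c) = 0`). -/
theorem exists_bound (N m : ℕ) {δ B : ℝ} (hδ : 0 < δ) (hB : 0 ≤ B) :
    ∃ ρ : ℝ, 0 < ρ ∧ ∀ c : ℝ, 0 < c → c * m < 1 → ∃ C : ENNReal, C ≠ ⊤ ∧
      ∀ g : Polynomial ℂ, g.natDegree ≤ N → (∀ i, ‖g.coeff i‖ ≤ B) → δ ≤ ‖g.coeff m‖ →
      ∫⁻ s in Metric.ball (0 : ℂ) ρ, ENNReal.ofReal (‖g.eval s‖ ^ (-(2 * c))) ≤ C := by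
  obtain ⟨ρ, hρ, C, hC, H⟩ := exists_cover N m hδ hB
  refine ⟨ρ, hρ, fun c hc hcm => ?_⟩
  have hvol : volume (Metric.ball (0 : ℂ) ρ) ≠ ⊤ := measure_ball_lt_top.ne
  rcases Nat.eq_zero_or_pos m with hm | hm
  · subst hm
    refine ⟨ENNReal.ofReal ((1 / (2 * C)) ^ (-(2 * c))) * volume (Metric.ball (0 : ℂ) ρ),
      ENNReal.mul_ne_top ENNReal.ofReal_ne_top hvol, fun g h1 h2 h3 => ?_⟩
    obtain ⟨T, hT, hT2⟩ := H g h1 h2 h3 (1 / (2 * C)) 1 (by positivity) one_pos (by
      rw [pow_zero]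
      have : C * (1 / (2 * C)) = 1 / 2 := by field_simp
      rw [this]
      norm_num)
    have hTe : T = ∅ := Finset.card_eq_zero.1 (Nat.le_zero.1 hT)
    rw [← setLIntegral_const]
    refine setLIntegral_mono measurable_const fun s hs => ?_
    refine ENNReal.ofReal_le_ofReal ?_
    refine Real.rpow_le_rpow_of_nonpos (by positivity) ?_ (by linarith)
    by_contra hcon
    obtain ⟨t, ht, -⟩ := hT2 s (by rw [mem_ball_zero_iff] at hs; exact hs.le) (not_le.1 hcon).le
    rw [hTe] at ht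
    exact absurd ht (Finset.notMem_empty t)
  · have hm' : (0 : ℝ) < m := by exact_mod_cast hm
    let r : ℕ → ℝ := fun j => (2 * C * (1 / 2 : ℝ) ^ j) ^ (1 / (m : ℝ))
    have hr : ∀ j, 0 < r j := fun j => Real.rpow_pos_of_pos (by positivity) _
    have hrm : ∀ j, r j ^ m = 2 * C * (1 / 2 : ℝ) ^ j := by
      intro j
      change ((2 * C * (1 / 2 : ℝ) ^ j) ^ (1 / (m : ℝ))) ^ m = _
      rw [← Real.rpow_natCast, ← Real.rpow_mul (by positivity), one_div_mul_cancel hm'.ne',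
        Real.rpow_one]
    let a : ℕ → ENNReal := fun j => ENNReal.ofReal ((2 : ℝ) ^ (2 * c * (j + 1)))
    let b : ℕ → ENNReal := fun j => ENNReal.ofReal ((2 : ℝ) ^ (2 * c * (j + 1)) *
      (m * ((r j) ^ 2 * Real.pi)))
    have hb : ∑' j, b j ≠ ⊤ := (summable_aux hC hm hcm).tsum_ofReal_ne_top
    refine ⟨volume (Metric.ball (0 : ℂ) ρ) + ∑' j, b j, ENNReal.add_ne_top.2 ⟨hvol, hb⟩,
      fun g h1 h2 h3 => ?_⟩
    let S : ℕ → Set ℂ := fun j => {s | ‖g.eval s‖ ≤ (1 / 2 : ℝ) ^ j}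
    have hS : ∀ j, MeasurableSet (S j) := fun j =>
      (isClosed_le (g.continuous.norm) continuous_const).measurableSet
    have hle : ∀ s, ENNReal.ofReal (‖g.eval s‖ ^ (-(2 * c))) ≤
        1 + ∑' j : ℕ, (S j).indicator (fun _ => a j) s := by
      intro s
      refine (pw_le hc (norm_nonneg _)).trans (le_of_eq (congrArg _ (tsum_congr fun j => ?_)))
      by_cases h : s ∈ S j
      · have h' : ‖g.eval s‖ ≤ (1 / 2 : ℝ) ^ j := h
        rw [Set.indicator_of_mem h, if_pos h']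
      · have h' : ¬ ‖g.eval s‖ ≤ (1 / 2 : ℝ) ^ j := h
        rw [Set.indicator_of_notMem h, if_neg h']
    have hmeas : ∀ j, Measurable ((S j).indicator (fun _ : ℂ => a j)) := fun j =>
      measurable_const.indicator (hS j)
    calc ∫⁻ s in Metric.ball (0 : ℂ) ρ, ENNReal.ofReal (‖g.eval s‖ ^ (-(2 * c)))
        ≤ ∫⁻ s in Metric.ball (0 : ℂ) ρ, (1 + ∑' j : ℕ, (S j).indicator (fun _ => a j) s) :=
          lintegral_mono fun s => hle s
      _ = volume (Metric.ball (0 : ℂ) ρ) +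
          ∑' j : ℕ, ∫⁻ s in Metric.ball (0 : ℂ) ρ, (S j).indicator (fun _ => a j) s := by
          rw [lintegral_add_left measurable_const, setLIntegral_one,
            lintegral_tsum fun j => (hmeas j).aemeasurable]
      _ ≤ volume (Metric.ball (0 : ℂ) ρ) + ∑' j, b j := by
          refine add_le_add le_rfl (ENNReal.tsum_le_tsum fun j => ?_)
          rw [lintegral_indicator_const (hS j), Measure.restrict_apply (hS j)]
          obtain ⟨T, hT, hT2⟩ := H g h1 h2 h3 ((1 / 2 : ℝ) ^ j) (r j) (by positivity) (hr j) (by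
            rw [hrm j]
            have : 0 < C * (1 / 2 : ℝ) ^ j := by positivity
            linarith)
          have hsub : S j ∩ Metric.ball (0 : ℂ) ρ ⊆ ⋃ t ∈ T, Metric.ball t (r j) := by
            rintro s ⟨hs1, hs2⟩
            rw [mem_ball_zero_iff] at hs2
            obtain ⟨t, ht, hst⟩ := hT2 s hs2.le hs1
            rw [Set.mem_iUnion₂]
            exact ⟨t, ht, by rw [mem_ball_iff_norm]; exact hst⟩
          have hv : volume (S j ∩ Metric.ball (0 : ℂ) ρ) ≤
              ENNReal.ofReal (m * ((r j) ^ 2 * Real.pi)) := by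
            calc volume (S j ∩ Metric.ball (0 : ℂ) ρ)
                ≤ volume (⋃ t ∈ T, Metric.ball t (r j)) := measure_mono hsub
              _ ≤ ∑ t ∈ T, volume (Metric.ball t (r j)) := measure_biUnion_finset_le _ _
              _ = ∑ t ∈ T, ENNReal.ofReal ((r j) ^ 2 * Real.pi) := by
                  refine Finset.sum_congr rfl fun t _ => ?_
                  rw [Complex.volume_ball, ENNReal.ofReal_mul (by positivity),
                    ENNReal.ofReal_pow (hr j).le]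
                  congr 1
                  exact (ENNReal.ofReal_eq_coe_nnreal Real.pi_pos.le).symm
              _ = (T.card : ENNReal) * ENNReal.ofReal ((r j) ^ 2 * Real.pi) := by
                  rw [Finset.sum_const, nsmul_eq_mul]
              _ ≤ (m : ENNReal) * ENNReal.ofReal ((r j) ^ 2 * Real.pi) :=
                  mul_le_mul' (by exact_mod_cast hT) le_rfl
              _ = ENNReal.ofReal (m * ((r j) ^ 2 * Real.pi)) := by
                  rw [ENNReal.ofReal_mul hm'.le, ENNReal.ofReal_natCast]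
          calc a j * volume (S j ∩ Metric.ball (0 : ℂ) ρ)
              ≤ a j * ENNReal.ofReal (m * ((r j) ^ 2 * Real.pi)) := mul_le_mul' le_rfl hv
            _ = b j := by
                change ENNReal.ofReal _ * _ = ENNReal.ofReal _
                rw [← ENNReal.ofReal_mul (by positivity)]

end YH

end MPb07157
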