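import Pool.Agent.Lib.MP_b07157_agYH.A3

/-!
# The local bound
-/

noncomputable section

namespace MPb07157

open MeasureTheory MvPolynomial Filter Topology

namespace YH

/-- The function `pw g c` is measurable. -/
theorem measurable_pw_A4 {n : ℕ} (g : MvPolynomial (Fin n) ℂ) (c : ℝ) : Measurable (pw g c) := by
  unfold pw
  refine Measurable.ennreal_ofReal ?_
  have h1 : Continuous fun z : Fin n → ℂ => ‖eval z g‖ := (MvPolynomial.continuous_eval g).norm
  exact h1.measurable.pow_const _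

/-- For `|s| < ρ'`, `∫_V φ(z) dz ≤ ∫_{V'} φ(z + s v) dz` for a larger ball `V'`, by the invariance of
the measure under translations; take the mean over `s` and use Tonelli's theorem and
`exists_line_bound`. -/
theorem exists_local_bound {n : ℕ} (f : MvPolynomial (Fin n) ℂ) (d m : ℕ) (p : Fin n → ℂ)
    (hm : MultLe (homogeneousComponent d f) p m) :
    ∃ r : ℝ, 0 < r ∧ ∀ c : ℝ, 0 < c → c * m < 1 → ∃ C : ENNReal, C ≠ ⊤ ∧
      ∀ τ : ℝ, |τ| < r → ∫⁻ z in Metric.ball p r, pw (fam f d τ) c z ≤ C := by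
  obtain ⟨v, k, hk, hkv⟩ := hm
  obtain ⟨ρ, hρ, hb⟩ := exists_line_bound f d k p v hkv
  refine ⟨ρ / 2, half_pos hρ, fun c hc hcm => ?_⟩
  have hck : c * k < 1 := by
    have h1 : (k : ℝ) ≤ m := by exact_mod_cast hk
    have h2 := mul_le_mul_of_nonneg_left h1 hc.le
    linarith
  obtain ⟨C, hC, hCb⟩ := hb c hc hck
  have hv1 : 0 < 2 * (‖v‖ + 1) := by positivity
  set ρ' : ℝ := min ρ (ρ / (2 * (‖v‖ + 1))) with hρ'
  have hρ'0 : 0 < ρ' := lt_min hρ (div_pos hρ hv1)
  have hρ'1 : ρ' ≤ ρ := min_le_left _ _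
  have hρ'2 : ρ' * ‖v‖ ≤ ρ / 2 := by
    have h1 : ρ' ≤ ρ / (2 * (‖v‖ + 1)) := min_le_right _ _
    have h2 : ρ' * ‖v‖ ≤ ρ / (2 * (‖v‖ + 1)) * ‖v‖ :=
      mul_le_mul_of_nonneg_right h1 (norm_nonneg _)
    have h3 : ρ / (2 * (‖v‖ + 1)) * ‖v‖ ≤ ρ / 2 := by
      rw [div_mul_eq_mul_div, div_le_div_iff₀ hv1 two_pos]
      nlinarith [norm_nonneg v]
    exact h2.trans h3
  have hvol : volume (Metric.ball (0 : ℂ) ρ') ≠ 0 :=
    (Metric.measure_ball_pos volume (0 : ℂ) hρ'0).ne'
  have hvolt : volume (Metric.ball (0 : ℂ) ρ') ≠ ⊤ := measure_ball_lt_top.ne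
  have hvol2 : volume (Metric.ball p ρ) ≠ ⊤ := measure_ball_lt_top.ne
  refine ⟨C * volume (Metric.ball p ρ) / volume (Metric.ball (0 : ℂ) ρ'),
    ENNReal.div_ne_top (ENNReal.mul_ne_top hC hvol2) hvol, fun τ hτ => ?_⟩
  have hτ' : |τ| < ρ := by linarith
  set φ : (Fin n → ℂ) → ENNReal := pw (fam f d τ) c with hφ
  have hφm : Measurable φ := measurable_pw_A4 _ _
  -- translation
  have key : ∀ s ∈ Metric.ball (0 : ℂ) ρ', ∫⁻ z in Metric.ball p (ρ / 2), φ z ≤
      ∫⁻ z in Metric.ball p ρ, φ (z + s • v) := by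
    intro s hs
    have hs' : ‖s‖ < ρ' := by simpa using hs
    rw [← lintegral_indicator Metric.isOpen_ball.measurableSet,
      ← lintegral_indicator Metric.isOpen_ball.measurableSet,
      ← lintegral_add_right_eq_self _ (s • v)]
    refine lintegral_mono fun z => ?_
    by_cases hz : z + s • v ∈ Metric.ball p (ρ / 2)
    · have hz2 : z ∈ Metric.ball p ρ := by
        rw [mem_ball_iff_norm] at hz ⊢
        have h1 : z - p = (z + s • v - p) - s • v := by
          rw [add_sub_right_comm, add_sub_cancel_right]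
        have h2 : ‖s • v‖ ≤ ρ / 2 := by
          rw [norm_smul]
          exact (mul_le_mul_of_nonneg_right hs'.le (norm_nonneg _)).trans hρ'2
        rw [h1]
        have h3 := norm_sub_le (z + s • v - p) (s • v)
        linarith
      rw [Set.indicator_of_mem hz, Set.indicator_of_mem hz2]
    · rw [Set.indicator_of_notMem hz]
      exact bot_le
  rw [ENNReal.le_div_iff_mul_le (Or.inl hvol) (Or.inl hvolt)]
  calc (∫⁻ z in Metric.ball p (ρ / 2), φ z) * volume (Metric.ball (0 : ℂ) ρ')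
      = ∫⁻ _ in Metric.ball (0 : ℂ) ρ', ∫⁻ z in Metric.ball p (ρ / 2), φ z := by
        rw [setLIntegral_const]
    _ ≤ ∫⁻ s in Metric.ball (0 : ℂ) ρ', ∫⁻ z in Metric.ball p ρ, φ (z + s • v) :=
        setLIntegral_mono' Metric.isOpen_ball.measurableSet key
    _ = ∫⁻ z in Metric.ball p ρ, ∫⁻ s in Metric.ball (0 : ℂ) ρ', φ (z + s • v) := by
        refine lintegral_lintegral_swap (f := fun s z => φ (z + s • v)) ?_
        refine Measurable.aemeasurable ?_
        refine hφm.comp ?_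
        have : Continuous fun q : ℂ × (Fin n → ℂ) => q.2 + q.1 • v :=
          continuous_snd.add (continuous_fst.smul continuous_const)
        exact this.measurable
    _ ≤ ∫⁻ _ in Metric.ball p ρ, C := by
        refine setLIntegral_mono' Metric.isOpen_ball.measurableSet fun z hz => ?_
        rw [mem_ball_iff_norm] at hz
        exact (lintegral_mono_set (Metric.ball_subset_ball hρ'1)).trans (hCb τ z hτ' hz)
    _ = C * volume (Metric.ball p ρ) := by rw [setLIntegral_const]

end YH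

end MPb07157
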