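import Pool.Agent.Lib.MP_b07157_agYH.A4

/-!
# The bound on a spherical shell
-/

noncomputable section

namespace MPb07157

open MeasureTheory MvPolynomial Filter Topology

namespace YH

private theorem lintegral_biUnion_le {α ι : Type*} [MeasurableSpace α] {μ : Measure α}
    (t : Finset ι) (s : ι → Set α) (φ : α → ENNReal) :
    ∫⁻ z in ⋃ i ∈ t, s i, φ z ∂μ ≤ ∑ i ∈ t, ∫⁻ z in s i, φ z ∂μ := by
  classical
  induction t using Finset.induction_on with
  | empty => simp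
  | insert a t ha ih =>
    rw [Finset.set_biUnion_insert, Finset.sum_insert ha]
    exact (lintegral_union_le _ _ _).trans (add_le_add le_rfl ih)

/-- By `exists_local_bound` and the compactness of the shell. (`c < n/d` and `m n ≤ d` imply
`c m < 1`.) -/
theorem exists_shell_bound {n : ℕ} (hn : 0 < n) (f : MvPolynomial (Fin n) ℂ) {d : ℕ} (hd : 0 < d)
    (h : ∀ p : Fin n → ℂ, p ≠ 0 → ∃ m : ℕ, m * n ≤ d ∧ MultLe (homogeneousComponent d f) p m) :
    ∃ r : ℝ, 0 < r ∧ ∀ c : ℝ, 0 < c → c < (n : ℝ) / d → ∃ C : ENNReal, C ≠ ⊤ ∧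
      ∀ τ : ℝ, |τ| < r →
        ∫⁻ z in {z : Fin n → ℂ | 1 / 2 ≤ ‖z‖ ∧ ‖z‖ ≤ 1}, pw (fam f d τ) c z ≤ C := by
  classical
  set S : Set (Fin n → ℂ) := {z : Fin n → ℂ | 1 / 2 ≤ ‖z‖ ∧ ‖z‖ ≤ 1} with hS
  have hScl : IsClosed S := by
    have h1 : IsClosed {z : Fin n → ℂ | (1 / 2 : ℝ) ≤ ‖z‖} :=
      isClosed_le continuous_const continuous_norm
    have h2 : IsClosed {z : Fin n → ℂ | ‖z‖ ≤ (1 : ℝ)} :=
      isClosed_le continuous_norm continuous_const
    exact h1.inter h2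
  have hSc : IsCompact S := by
    refine (isCompact_closedBall (0 : Fin n → ℂ) 1).of_isClosed_subset hScl ?_
    intro z hz
    rw [mem_closedBall_zero_iff]
    exact hz.2
  have hne : ∀ p ∈ S, p ≠ 0 := by
    rintro p hp rfl
    have h1 := hp.1
    rw [norm_zero] at h1
    norm_num at h1
  choose! m hm using h
  choose! r hr using fun (p : Fin n → ℂ) (hp : p ≠ 0) => exists_local_bound f d (m p) p (hm p hp).2
  obtain ⟨t, ht1, ht2⟩ := hSc.elim_nhds_subcover (fun p => Metric.ball p (r p)) fun p hp =>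
    Metric.ball_mem_nhds p (hr p (hne p hp)).1
  obtain ⟨r₀, hr0, hr1⟩ : ∃ r₀ : ℝ, 0 < r₀ ∧ ∀ p ∈ t, r₀ ≤ r p := by
    rcases t.eq_empty_or_nonempty with rfl | hne'
    · exact ⟨1, one_pos, fun p hp => absurd hp (Finset.notMem_empty p)⟩
    · obtain ⟨p₀, hp₀, hmin⟩ := t.exists_min_image r hne'
      exact ⟨r p₀, (hr p₀ (hne p₀ (ht1 p₀ hp₀))).1, hmin⟩
  refine ⟨r₀, hr0, fun c hc hcd => ?_⟩
  have hcm : ∀ p, p ≠ 0 → c * m p < 1 := by
    intro p hp
    have h1 : ((m p : ℝ)) * n ≤ d := by exact_mod_cast (hm p hp).1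
    have hn' : (0 : ℝ) < n := by exact_mod_cast hn
    have hd' : (0 : ℝ) < d := by exact_mod_cast hd
    rcases Nat.eq_zero_or_pos (m p) with h0 | h0
    · rw [h0, Nat.cast_zero, mul_zero]
      exact one_pos
    · have hm' : (0 : ℝ) < m p := by exact_mod_cast h0
      rw [lt_div_iff₀ hd'] at hcd
      have h2 : c * m p * n < n := by
        calc c * m p * n = c * (m p * n) := by ring
          _ ≤ c * d := by exact mul_le_mul_of_nonneg_left h1 hc.le
          _ < n := hcd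
      by_contra h3
      rw [not_lt] at h3
      nlinarith
  choose! C hC using fun (p : Fin n → ℂ) (hp : p ≠ 0) => (hr p hp).2 c hc (hcm p hp)
  refine ⟨∑ p ∈ t, C p, ?_, fun τ hτ => ?_⟩
  · exact ENNReal.sum_ne_top.2 fun p hp => (hC p (hne p (ht1 p hp))).1
  · refine (lintegral_mono_set ht2).trans ((lintegral_biUnion_le t _ _).trans ?_)
    exact Finset.sum_le_sum fun p hp => (hC p (hne p (ht1 p hp))).2 τ
      (lt_of_lt_of_le hτ (hr1 p hp))

end YH

end MPb07157
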