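import Mathlib

/-!
# Points of small multiplicity of a form: definitions
-/

noncomputable section

namespace MPb07157

open MvPolynomial

namespace YH

variable {n : ℕ}

/-- The polynomial `F(p + s v)` in `s`. -/
def lineP (F : MvPolynomial (Fin n) ℂ) (p v : Fin n → ℂ) : Polynomial ℂ :=
  aeval (fun i => Polynomial.C (p i) + Polynomial.C (v i) * Polynomial.X) F

/-- The multiplicity of `F` at `p` is at most `m`: on some line through `p`, `F` has a zero of order
at most `m` at `p`. -/
def MultLe (F : MvPolynomial (Fin n) ℂ) (p : Fin n → ℂ) (m : ℕ) : Prop :=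
  ∃ v : Fin n → ℂ, ∃ k ≤ m, (lineP F p v).coeff k ≠ 0

/-- The family of the functions `τ^{-d} f(τ z)`, for a polynomial `f` of order `≥ d`. -/
def fam (f : MvPolynomial (Fin n) ℂ) (d : ℕ) (τ : ℝ) : MvPolynomial (Fin n) ℂ :=
  ∑ j ∈ Finset.range (f.totalDegree + 1), C ((τ : ℂ) ^ j) * homogeneousComponent (d + j) f

/-- The function `|g|^(-2c)`. -/
def pw (g : MvPolynomial (Fin n) ℂ) (c : ℝ) (z : Fin n → ℂ) : ENNReal :=
  ENNReal.ofReal (‖eval z g‖ ^ (-(2 * c)))

end YH

end MPb07157
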